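import Pool.Agent.Work.MP_a793bb_nt.RadL.LowDefs
import Pool.Agent.Work.MP_a793bb_nt.Balanced

/-!
# Radical and height of a quotient

Proof. Let `x = u / w`, `d = finrank ℚ K`. If `p ∈ Ip x` then `p` contains `u`, `w` or `u - w`: otherwise
`av p u = av p w = av p (u - w) = 1` (`BPlus.av_lt_one_iff_mem`, `BPlus.av_le_one_of_int`) and
`av p x = 1 = av p (1 - x)` (`mem_Ip`). So `Ip x ⊆ {p | p.asIdeal ∣ span {u w (u - w)}}` and
`exp (Rs (Ip x)) ≤ absNorm (radical of span {u w (u - w)}) ≤ absNorm (span {u w (u - w)})`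
(`Rs_mono`, `absNorm_radical`; the norm of the radical divides the norm, `Ideal.le_radical`)
`= |N(u) N(w) N(u - w)| ≤ (3 T) ^ d (3 T) ^ d (6 T) ^ d` (`InfinitePlace.prod_eq_abs_norm`).
Height: `![x, 1 - x, -1] = w⁻¹ • ![u, w - u, -w]` (`logHeight_smul_eq_logHeight`), and by `mulHeight_int` for the
integral vector `![u, w - u, -w]`, `mulHeight ≤ ∏ v, (max of the v) ^ mult v ≤ (6 T) ^ d`
(compare `mulHeight₁_int_le`).
-/

set_option autoImplicit false

namespace Pool.Agent.Work.MP_a793bb_nt.RadL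

open NumberField IsDedekindDomain Height Module

variable {K : Type*} [Field K] [NumberField K]

private theorem prod_le_pow {f : InfinitePlace K → ℝ} {B : ℝ} (h0 : ∀ v, 0 ≤ f v)
    (h : ∀ v, f v ≤ B) : ∏ v : InfinitePlace K, f v ^ v.mult ≤ B ^ finrank ℚ K := by
  rw [← InfinitePlace.sum_mult_eq, ← Finset.prod_pow_eq_pow_sum]
  apply Finset.prod_le_prod
  · intro v _
    exact pow_nonneg (h0 v) _
  · intro v _
    exact pow_le_pow_left₀ (h0 v) (h v) _

private theorem Ip_sub {u w : 𝓞 K} (hw0 : w ≠ 0) :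
    Ip ((u : K) / (w : K)) ⊆ {p | p.asIdeal ∣ Ideal.span {u * w * (u - w)}} := by
  intro p hp
  rw [mem_Ip] at hp
  by_contra h
  apply hp
  rw [Set.mem_ofPred_eq, Ideal.dvd_span_singleton] at h
  have hu : u ∉ p.asIdeal := fun hu => h (Ideal.mul_mem_right _ _ (Ideal.mul_mem_right _ _ hu))
  have hw : w ∉ p.asIdeal := fun hw => h (Ideal.mul_mem_right _ _ (Ideal.mul_mem_left _ _ hw))
  have hs : u - w ∉ p.asIdeal := fun hs => h (Ideal.mul_mem_left _ _ hs)
  have key : ∀ a : 𝓞 K, a ∉ p.asIdeal → av p (a : K) = 1 := by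
    intro a ha
    refine le_antisymm (BPlus.av_le_one_of_int p a) ?_
    by_contra hlt
    push Not at hlt
    exact ha ((BPlus.av_lt_one_iff_mem p a).mp hlt)
  have hwK : (w : K) ≠ 0 := by exact_mod_cast hw0
  have h1 : av p ((u : K) / (w : K)) = 1 := by
    rw [div_eq_mul_inv, av_mul, av_inv, key u hu, key w hw]
    norm_num
  have h2 : av p (1 - (u : K) / (w : K)) = 1 := by
    have he : 1 - (u : K) / (w : K) = -(((u - w : 𝓞 K) : K)) * (w : K)⁻¹ := by
      push_cast
      field_simp
      ring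
    rw [he, av_mul, av_neg, av_inv, key _ hs, key w hw]
    norm_num
  exact ⟨h1, h2⟩

theorem rad_ratio {T : ℝ} (hT : 1 ≤ T) {u w : 𝓞 K} (hu0 : u ≠ 0) (hw0 : w ≠ 0) (hne : u ≠ w)
    (hu : ∀ v : InfinitePlace K, v (u : K) ≤ 3 * T)
    (hw : ∀ v : InfinitePlace K, v (w : K) ≤ 3 * T) :
    Real.exp (Rs (Ip ((u : K) / (w : K)))) ≤ (54 * T ^ 3) ^ finrank ℚ K ∧
    logHeight ![(u : K) / (w : K), 1 - (u : K) / (w : K), -1] ≤ (Module.finrank ℚ K : ℝ) * Real.log (6 * T) := by
  have hwK : (w : K) ≠ 0 := by exact_mod_cast hw0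
  have hsub : ∀ v : InfinitePlace K, v ((u : K) - (w : K)) ≤ 6 * T := by
    intro v
    have h1 : v ((u : K) - (w : K)) ≤ v (u : K) + v (w : K) := by
      have h2 := v.1.sub_le_add (u : K) (w : K)
      exact h2
    linarith [hu v, hw v]
  have hnn : ∀ (v : InfinitePlace K) (x : K), 0 ≤ v x := fun v x => apply_nonneg _ _
  constructor
  · have hn0 : u * w * (u - w) ≠ 0 := mul_ne_zero (mul_ne_zero hu0 hw0) (sub_ne_zero.mpr hne)
    have hI : Ideal.span {u * w * (u - w)} ≠ ⊥ := by
      rw [Ne, Ideal.span_singleton_eq_bot]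
      exact hn0
    have h1 : Rs (Ip ((u : K) / (w : K))) ≤ Rs {p | p.asIdeal ∣ Ideal.span {u * w * (u - w)}} :=
      Rs_mono (finite_dvd hI) (Ip_sub hw0)
    have h2 := absNorm_radical hI
    have h3 : (Ideal.absNorm (Ideal.span {u * w * (u - w)}).radical : ℝ) ≤
        (Ideal.absNorm (Ideal.span {u * w * (u - w)}) : ℝ) := by
      have := Nat.le_of_dvd (Nat.pos_of_ne_zero (by rw [Ne, Ideal.absNorm_eq_zero_iff]; exact hI))
        (Ideal.absNorm_dvd_absNorm_of_le (Ideal.le_radical (I := Ideal.span {u * w * (u - w)})))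
      exact_mod_cast this
    have h4 : (Ideal.absNorm (Ideal.span {u * w * (u - w)}) : ℝ) =
        ∏ v : InfinitePlace K, v ((u * w * (u - w) : 𝓞 K) : K) ^ v.mult := by
      rw [InfinitePlace.prod_eq_abs_norm, Ideal.absNorm_span_singleton, ← Algebra.coe_norm_int]
      rw [Nat.cast_natAbs]
      push_cast
      rfl
    have h5 : ∏ v : InfinitePlace K, v ((u * w * (u - w) : 𝓞 K) : K) ^ v.mult ≤
        (54 * T ^ 3) ^ finrank ℚ K := by
      apply prod_le_pow (fun v => hnn v _)
      intro v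
      push_cast
      rw [map_mul, map_mul]
      calc v (u : K) * v (w : K) * v ((u : K) - (w : K)) ≤ (3 * T) * (3 * T) * (6 * T) := by
            apply mul_le_mul (mul_le_mul (hu v) (hw v) (hnn v _) (by positivity)) (hsub v)
              (hnn v _) (by positivity)
        _ = 54 * T ^ 3 := by ring
    calc Real.exp (Rs (Ip ((u : K) / (w : K)))) ≤
          Real.exp (Rs {p | p.asIdeal ∣ Ideal.span {u * w * (u - w)}}) := Real.exp_le_exp.mpr h1
      _ = (Ideal.absNorm (Ideal.span {u * w * (u - w)}).radical : ℝ) := h2.symm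
      _ ≤ (Ideal.absNorm (Ideal.span {u * w * (u - w)}) : ℝ) := h3
      _ = _ := h4
      _ ≤ _ := h5
  · have hsm : (![(u : K) / (w : K), 1 - (u : K) / (w : K), -1] : Fin 3 → K) =
        (w : K)⁻¹ • ![(u : K), (w : K) - (u : K), -(w : K)] := by
      ext i
      fin_cases i
      · simp [div_eq_mul_inv, mul_comm]
      · simp
        field_simp
      · simp [hwK]
    rw [hsm, logHeight_smul_eq_logHeight _ (inv_ne_zero hwK)]
    have hy : (![u, w - u, -w] : Fin 3 → 𝓞 K) ≠ 0 := by
      intro h0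
      have := congrFun h0 0
      simp at this
      exact hu0 this
    have h1 := mulHeight_int ![u, w - u, -w] hy
    have h2 : (fun i => ((![u, w - u, -w] : Fin 3 → 𝓞 K) i : K)) =
        ![(u : K), (w : K) - (u : K), -(w : K)] := by
      ext i; fin_cases i
      · rfl
      · simp
      · simp
    rw [h2] at h1
    have h4 : (1 : ℝ) ≤ Ideal.absNorm (Ideal.span (Set.range (![u, w - u, -w] : Fin 3 → 𝓞 K))) := by
      apply one_le_absNorm K
      intro h0
      rw [Ideal.span_eq_bot] at h0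
      exact hu0 (h0 u ⟨0, rfl⟩)
    have h5 : 0 < mulHeight ![(u : K), (w : K) - (u : K), -(w : K)] := mulHeight_pos _
    have h6 : ∏ v : InfinitePlace K, (⨆ i, v ((![u, w - u, -w] : Fin 3 → 𝓞 K) i : K)) ^ v.mult ≤
        (6 * T) ^ finrank ℚ K := by
      apply prod_le_pow
      · intro v
        exact Real.iSup_nonneg fun i => apply_nonneg _ _
      · intro v
        apply ciSup_le
        intro i
        fin_cases i
        · show v (u : K) ≤ 6 * T
          linarith [hu v]
        · have h7 : v (((w - u : 𝓞 K)) : K) = v ((u : K) - (w : K)) := by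
            push_cast
            exact v.1.map_sub _ _
          show v (((w - u : 𝓞 K)) : K) ≤ 6 * T
          rw [h7]
          exact hsub v
        · have h7 : v (((-w : 𝓞 K)) : K) = v (w : K) := by
            push_cast
            exact v.1.map_neg _
          show v (((-w : 𝓞 K)) : K) ≤ 6 * T
          rw [h7]
          linarith [hw v]
    have h8 : mulHeight ![(u : K), (w : K) - (u : K), -(w : K)] ≤ (6 * T) ^ finrank ℚ K := by
      calc mulHeight ![(u : K), (w : K) - (u : K), -(w : K)] ≤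
            mulHeight ![(u : K), (w : K) - (u : K), -(w : K)] *
            Ideal.absNorm (Ideal.span (Set.range (![u, w - u, -w] : Fin 3 → 𝓞 K))) :=
            le_mul_of_one_le_right h5.le h4
        _ ≤ _ := by rw [h1]; exact h6
    show Real.log (mulHeight ![(u : K), (w : K) - (u : K), -(w : K)]) ≤ _
    rw [← Real.log_pow]
    exact Real.log_le_log h5 h8

end Pool.Agent.Work.MP_a793bb_nt.RadL
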