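import Pool.Agent.Work.MP_a793bb_nt.RadL.LowDefs
import Pool.Agent.Work.MP_a793bb_nt.Units

/-!
# Quotients of coprime pairs

Proof. The set `E` of the units `ε` with `v ε ≤ 3` for all infinite places is finite (`card_units_le`
with `R = log 3`); `U = E.ncard` (`≥ 1`, it contains `1`). Let `(u, w)` and `(u', w')` be good pairs with
`u / w = u' / w'`. All four elements are nonzero (`T > 0`) and `u w' = u' w`. The ideals `(u)` and `(w)`
have no common prime, so they are coprime (`Ideal.isCoprime_iff_sup_eq`: otherwise the sum is contained in a maximal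
ideal, which is not `⊥`), and `(u)` divides `(u') (w)`, so `(u) ∣ (u')`; by symmetry
`(u') ∣ (u)`, so `u' = ε u` with a unit `ε` (`Ideal.span_singleton_eq_span_singleton`), and then `w' = ε w`.
`v ε = v u' / v u ≤ 3`. So the fibres of `q ↦ q.1 / q.2` on `P` have at most `U` elements
(`Finset.card_le_mul_card_image`).
-/

set_option autoImplicit false

namespace Pool.Agent.Work.MP_a793bb_nt.RadL

open NumberField IsDedekindDomain

private theorem isCoprime_of {K : Type*} [Field K] [NumberField K] {u w : 𝓞 K} (hu : u ≠ 0)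
    (h : ∀ p : HeightOneSpectrum (𝓞 K), ¬ (u ∈ p.asIdeal ∧ w ∈ p.asIdeal)) : IsCoprime u w := by
  rw [← Ideal.isCoprime_span_singleton_iff, Ideal.isCoprime_iff_sup_eq]
  by_contra hne
  obtain ⟨M, hM, hle⟩ := Ideal.exists_le_maximal _ hne
  have h1 : u ∈ M := hle (Ideal.mem_sup_left (Ideal.mem_span_singleton_self u))
  have h2 : w ∈ M := hle (Ideal.mem_sup_right (Ideal.mem_span_singleton_self w))
  have hb : M ≠ ⊥ := by
    intro hb
    rw [hb] at h1
    exact hu ((Ideal.mem_bot).mp h1)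
  exact h ⟨M, hM.isPrime, hb⟩ ⟨h1, h2⟩

private theorem unit_of_eq {K : Type*} [Field K] [NumberField K] {u w u' w' : 𝓞 K} (hu : u ≠ 0)
    (h1 : IsCoprime u w) (h2 : IsCoprime u' w') (he : u * w' = u' * w) :
    ∃ ε : (𝓞 K)ˣ, u' = (ε : 𝓞 K) * u ∧ w' = (ε : 𝓞 K) * w := by
  have d1 : u ∣ u' := h1.dvd_of_dvd_mul_right ⟨w', he.symm⟩
  have d2 : u' ∣ u := h2.dvd_of_dvd_mul_right ⟨w, he⟩
  obtain ⟨ε, hε⟩ := associated_of_dvd_dvd d1 d2
  refine ⟨ε, by rw [← hε, mul_comm], ?_⟩
  apply mul_left_cancel₀ hu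
  rw [he, ← hε]
  ring

private theorem ne_zero_of {K : Type*} [Field K] [NumberField K] {m : ℕ} {T : ℝ} (hT : 0 < T)
    {u : 𝓞 K} (hu : u ∈ boxA K m T) : u ≠ 0 := by
  rintro rfl
  obtain ⟨v⟩ := (inferInstance : Nonempty (InfinitePlace K))
  have := (hu.2 v).1
  simp only [map_zero] at this
  linarith

open Classical in
theorem ratios (K : Type*) [Field K] [NumberField K] : ∃ U : ℕ, 1 ≤ U ∧
    ∀ (m : ℕ) (T : ℝ) (P : Finset (𝓞 K × 𝓞 K)), 0 < T → (∀ q ∈ P, GoodPair K m T q) →
      P.card ≤ U * (P.image (fun q => (q.1 : K) / (q.2 : K))).card := by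
  obtain ⟨C, hC, hC'⟩ := card_units_le K
  have hfin := (hC' (Real.log 3) (Real.log_nonneg (by norm_num))).1
  refine ⟨hfin.toFinset.card, ?_, ?_⟩
  · rw [Nat.one_le_iff_ne_zero, Finset.card_ne_zero]
    refine ⟨1, ?_⟩
    rw [Set.Finite.mem_toFinset]
    intro v
    simp only [Units.val_one, map_one, Real.log_one]
    exact Real.log_nonneg (by norm_num)
  · intro m T P hT hP
    apply Finset.card_le_mul_card_image
    intro b hb
    rw [Finset.mem_image] at hb
    obtain ⟨q0, hq0, rfl⟩ := hb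
    have hsub : P.filter (fun q => (q.1 : K) / (q.2 : K) = (q0.1 : K) / (q0.2 : K)) ⊆
        hfin.toFinset.image (fun ε : (𝓞 K)ˣ => (((ε : 𝓞 K) * q0.1, (ε : 𝓞 K) * q0.2) : 𝓞 K × 𝓞 K)) := by
      intro q hq
      rw [Finset.mem_filter] at hq
      obtain ⟨hqP, hqe⟩ := hq
      obtain ⟨ha1, ha2, ha3⟩ := hP q hqP
      obtain ⟨hb1, hb2, hb3⟩ := hP q0 hq0
      have na1 := ne_zero_of hT ha1
      have na2 := ne_zero_of hT ha2
      have nb1 := ne_zero_of hT hb1
      have nb2 := ne_zero_of hT hb2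
      have he : q0.1 * q.2 = q.1 * q0.2 := by
        have h2 : (q.2 : K) ≠ 0 := by exact_mod_cast na2
        have h3 : (q0.2 : K) ≠ 0 := by exact_mod_cast nb2
        rw [div_eq_div_iff h2 h3] at hqe
        have : ((q0.1 * q.2 : 𝓞 K) : K) = ((q.1 * q0.2 : 𝓞 K) : K) := by
          push_cast
          rw [hqe]
        exact_mod_cast this
      obtain ⟨ε, h1, h2⟩ := unit_of_eq nb1 (isCoprime_of nb1 hb3) (isCoprime_of na1 ha3) he
      rw [Finset.mem_image]
      refine ⟨ε, ?_, ?_⟩
      · rw [Set.Finite.mem_toFinset]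
        intro v
        have h4 : v (q.1 : K) = v ((ε : 𝓞 K) : K) * v (q0.1 : K) := by
          rw [← map_mul, h1]
          push_cast
          rfl
        have h5 := (ha1.2 v).2
        have h6 := (hb1.2 v).1
        have h7 : 0 < v ((ε : 𝓞 K) : K) := by
          apply v.pos_iff.mpr
          have : (ε : 𝓞 K) ≠ 0 := ε.ne_zero
          exact_mod_cast this
        apply Real.log_le_log h7
        rw [h4] at h5
        by_contra hlt
        push Not at hlt
        nlinarith
      · rw [← h1, ← h2]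
    exact (Finset.card_le_card hsub).trans Finset.card_image_le

end Pool.Agent.Work.MP_a793bb_nt.RadL
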