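import Pool.Agent.Work.MP_a793bb_nt.RadL.LowCop
import Pool.Agent.Work.MP_a793bb_nt.RadL.LowRat
import Pool.Agent.Work.MP_a793bb_nt.RadL.LowRad

/-!
# The lower bound

Proof. `finite_rset`: the height is bounded (`logHeight₁_le_triple`,
`NumberField.finite_setOfPred_mulHeight₁_le`).
`lowerK`: `d = finrank ℚ K`, `c1, T0, m` from `coprime_pairs`, `U` from `ratios`. For `R` large let
`T = (R ^ (1 / d) / 54) ^ (1 / 3)`, so that `(54 T ^ 3) ^ d = R` and `T ≥ T0`. Take `P` for this `T` and let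
`X` be the set of the quotients `q.1 / q.2`, `q ∈ P`, different from `1`. Its cardinality is at least
`P.card / U - 1 ≥ (c1 / U) T ^ (2 d) - 1 = (c1 / U) (R / 54 ^ d) ^ (2 / 3) - 1`
(`T ^ (2 d) = ((54 T ^ 3) ^ d / 54 ^ d) ^ (2 / 3)`), at least `c R ^ (2 / 3)` with
`c = (c1 / U) 54 ^ (- 2 d / 3) / 2` for large `R`. And `X ⊆ rset K ε R` by `rad_ratio`, since
`log (6 T) ≤ log (6 R) ≤ exp (R ^ (ε / 2))` for large `R` (for instance
`log (6 R) ≤ 6 R`, `R ≤ exp (R ^ (ε / 2)) / 6` for large `R`: use that `R ^ (ε / 2) - log R → ∞`,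
or `Real.add_one_le_exp` and `isLittleO_log_rpow_atTop`). Elements of `boxA K m T` are nonzero as `T > 0`.
-/

set_option autoImplicit false

namespace Pool.Agent.Work.MP_a793bb_nt.RadL

open NumberField IsDedekindDomain Height

theorem finite_rset (K : Type*) [Field K] [NumberField K] (ε R : ℝ) : (rset K ε R).Finite := by
  refine (NumberField.finite_setOfPred_mulHeight₁_le K
    (Real.exp ((Module.finrank ℚ K : ℝ) * Real.exp (R ^ (ε / 2))))).subset ?_
  rintro x ⟨_, _, _, hx⟩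
  have h1 : Real.log (mulHeight₁ x) ≤ (Module.finrank ℚ K : ℝ) * Real.exp (R ^ (ε / 2)) :=
    (logHeight₁_le_triple x).trans hx
  have h2 : 0 < mulHeight₁ x := mulHeight₁_pos x
  show mulHeight₁ x ≤ _
  rw [← Real.exp_log h2]
  exact Real.exp_le_exp.mpr h1

open Filter in
private theorem ev_log (ε : ℝ) (hε : 0 < ε) :
    ∀ᶠ R : ℝ in atTop, Real.log (6 * R) ≤ R ^ (ε / 2) := by
  have h1 := (isLittleO_log_rpow_atTop (half_pos hε)).bound (by norm_num : (0 : ℝ) < 1 / 2)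
  have h2 : ∀ᶠ R : ℝ in atTop, 2 * Real.log 6 ≤ R ^ (ε / 2) :=
    (tendsto_rpow_atTop (half_pos hε)).eventually_ge_atTop _
  filter_upwards [h1, h2, eventually_ge_atTop 1] with R a1 a2 a3
  rw [Real.norm_eq_abs, Real.norm_eq_abs, abs_of_nonneg (Real.log_nonneg a3),
    abs_of_nonneg (by positivity)] at a1
  rw [Real.log_mul (by norm_num) (by linarith)]
  linarith

private theorem Tfacts {d : ℕ} (hd : 1 ≤ d) {T0 R : ℝ} (hT0 : 1 ≤ T0)
    (hR : (54 * T0 ^ 3) ^ d ≤ R) : ∃ T : ℝ, T0 ≤ T ∧ (54 * T ^ 3) ^ d = R ∧ T ≤ R ∧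
      T ^ (2 * d) = R ^ (2 / 3 : ℝ) / ((54 : ℝ) ^ d) ^ (2 / 3 : ℝ) := by
  have hd0 : (d : ℝ) ≠ 0 := by
    have : d ≠ 0 := by omega
    exact_mod_cast this
  have hR0 : 0 ≤ R := le_trans (by positivity) hR
  set Q : ℝ := R ^ (1 / (d : ℝ)) / 54 with hQ
  have hQ0 : 0 ≤ Q := by positivity
  have hQd : (54 * Q) ^ d = R := by
    rw [hQ, mul_div_cancel₀ _ (by norm_num), ← Real.rpow_natCast, ← Real.rpow_mul hR0,
      one_div_mul_cancel hd0, Real.rpow_one]
  have hQ1 : T0 ^ 3 ≤ Q := by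
    by_contra hlt
    push Not at hlt
    have h1 : (54 * Q) ^ d < (54 * T0 ^ 3) ^ d := by
      apply pow_lt_pow_left₀ (by linarith) (by positivity) (by omega)
    linarith
  set T : ℝ := Q ^ (1 / 3 : ℝ) with hT
  have hT3 : T ^ 3 = Q := by
    rw [hT, ← Real.rpow_natCast, ← Real.rpow_mul hQ0]
    norm_num
  have hTn : 0 ≤ T := by positivity
  have hTT0 : T0 ≤ T := by
    by_contra hlt
    push Not at hlt
    have h1 : T ^ 3 < T0 ^ 3 := pow_lt_pow_left₀ hlt hTn (by norm_num)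
    linarith
  have hTR : (54 * T ^ 3) ^ d = R := by rw [hT3, hQd]
  have hT1 : 1 ≤ T := hT0.trans hTT0
  refine ⟨T, hTT0, hTR, ?_, ?_⟩
  · have h1 : T ≤ 54 * T ^ 3 := by
      have : 1 * T ≤ T ^ 2 * T := mul_le_mul_of_nonneg_right (one_le_pow₀ hT1) hTn
      nlinarith
    have h2 : 1 ≤ 54 * T ^ 3 := hT1.trans h1
    have h3 : 54 * T ^ 3 ≤ (54 * T ^ 3) ^ d := le_self_pow₀ h2 (by omega)
    linarith
  · rw [← Real.div_rpow hR0 (by positivity), ← hTR, mul_pow, mul_div_cancel_left₀ _ (by positivity),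
      ← pow_mul, ← Real.rpow_natCast T (3 * d), ← Real.rpow_mul hTn, ← Real.rpow_natCast]
    congr 1
    push_cast
    ring

open Filter in
theorem lowerK (K : Type*) [Field K] [NumberField K] (ε : ℝ) (hε : 0 < ε) :
    ∃ c R0 : ℝ, 0 < c ∧ 1 ≤ R0 ∧ ∀ R : ℝ, R0 ≤ R →
      c * R ^ (2 / 3 : ℝ) ≤ ((rset K ε R).ncard : ℝ) := by
  classical
  obtain ⟨c1, T0, m, hc1, hT0, hm, hP⟩ := coprime_pairs K
  obtain ⟨U, hU, hrat⟩ := ratios K
  have hd1 : 1 ≤ Module.finrank ℚ K := Module.finrank_pos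
  set a : ℝ := ((54 : ℝ) ^ Module.finrank ℚ K) ^ (2 / 3 : ℝ) with ha
  have ha0 : 0 < a := by positivity
  have hU0 : (0 : ℝ) < U := by exact_mod_cast hU
  set c : ℝ := c1 / U / a / 2 with hc
  have hc0 : 0 < c := by positivity
  have e1 : ∀ᶠ R : ℝ in atTop, 1 / c ≤ R ^ (2 / 3 : ℝ) :=
    (tendsto_rpow_atTop (by norm_num)).eventually_ge_atTop _
  have e2 := ev_log ε hε
  have e3 : ∀ᶠ R : ℝ in atTop, (54 * T0 ^ 3) ^ Module.finrank ℚ K ≤ R := eventually_ge_atTop _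
  obtain ⟨R1, hR1⟩ := eventually_atTop.mp (e1.and (e2.and e3))
  refine ⟨c, max R1 1, hc0, le_max_right _ _, fun R hR => ?_⟩
  obtain ⟨h1, h2, h3⟩ := hR1 R (le_trans (le_max_left _ _) hR)
  have hRge1 : 1 ≤ R := le_trans (le_max_right _ _) hR
  obtain ⟨T, hTT0, hTR, hTle, hT2⟩ := Tfacts hd1 hT0 h3
  have hT1 : 1 ≤ T := hT0.trans hTT0
  obtain ⟨P, hPg, hPc⟩ := hP T hTT0
  have hcard := hrat m T P (by linarith) hPg
  set X := P.image (fun q => (q.1 : K) / (q.2 : K)) with hX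
  have hne : ∀ u : 𝓞 K, u ∈ boxA K m T → u ≠ 0 := by
    rintro u hu rfl
    obtain ⟨v⟩ := (inferInstance : Nonempty (InfinitePlace K))
    have := (hu.2 v).1
    simp only [map_zero] at this
    linarith
  have hsub : ((X.erase 1 : Finset K) : Set K) ⊆ rset K ε R := by
    intro x hx
    rw [Finset.mem_coe, Finset.mem_erase, hX, Finset.mem_image] at hx
    obtain ⟨hx1, q, hq, rfl⟩ := hx
    obtain ⟨g1, g2, _⟩ := hPg q hq
    have n1 := hne _ g1
    have n2 := hne _ g2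
    have n1K : (q.1 : K) ≠ 0 := by exact_mod_cast n1
    have n2K : (q.2 : K) ≠ 0 := by exact_mod_cast n2
    have hqne : q.1 ≠ q.2 := by
      intro h
      apply hx1
      rw [h]
      exact div_self n2K
    obtain ⟨r1, r2⟩ := rad_ratio hT1 n1 n2 hqne (fun v => (g1.2 v).2) (fun v => (g2.2 v).2)
    refine ⟨div_ne_zero n1K n2K, hx1, r1.trans hTR.le, r2.trans ?_⟩
    apply mul_le_mul_of_nonneg_left _ (by positivity)
    calc Real.log (6 * T) ≤ Real.log (6 * R) := Real.log_le_log (by linarith) (by linarith)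
      _ ≤ R ^ (ε / 2) := h2
      _ ≤ Real.exp (R ^ (ε / 2)) := by
          have := Real.add_one_le_exp (R ^ (ε / 2))
          linarith
  have hle : (X.erase 1).card ≤ (rset K ε R).ncard := by
    rw [← Set.ncard_coe_finset]
    exact Set.ncard_le_ncard hsub (finite_rset K ε R)
  have h4 : X.card ≤ (X.erase 1).card + 1 := by have := Finset.pred_card_le_card_erase (s := X) (a := (1 : K)); omega
  have h5 : (X.card : ℝ) ≤ ((rset K ε R).ncard : ℝ) + 1 := by
    exact_mod_cast h4.trans (Nat.add_le_add_right hle 1)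
  have h6 : c1 * T ^ (2 * Module.finrank ℚ K) ≤ U * (X.card : ℝ) := by
    refine hPc.trans ?_
    exact_mod_cast hcard
  rw [hT2] at h6
  have h7 : 2 * c * R ^ (2 / 3 : ℝ) ≤ (X.card : ℝ) := by
    have e : 2 * c * R ^ (2 / 3 : ℝ) = (c1 * (R ^ (2 / 3 : ℝ) / a)) / U := by
      rw [hc]
      field_simp
    rw [e, div_le_iff₀ hU0]
    linarith
  have h8 : 1 ≤ c * R ^ (2 / 3 : ℝ) := by
    rw [div_le_iff₀ hc0] at h1
    linarith
  linarith

end Pool.Agent.Work.MP_a793bb_nt.RadL
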