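import Pool.Agent.Work.MP_a793bb_nt.RadK.FinalDefs
import Pool.Agent.Work.MP_a793bb_nt.RadL.LowerK
import Pool.Agent.Work.MP_a793bb_nt.ExcMain

/-!
# The sharp lower bound for the number of points

Proof. Let `t ↦ P_t = (t : 1 - t : -1)` (see `vec_ne_zero`, `ptOf`, `ptOf_injective`, `excPts_eq` in
`ExcMain.lean`). `rset K ε R` is mapped injectively into `radPts K R (exp (R ^ (ε / 2)))`:
`rad t (1 - t) (-1) = Rs (Ip t) / d`, `ht t (1 - t) (-1) = logHeight ![t, 1 - t, -1] / d`. So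
`(rset K ε R).ncard ≤ (radPts K R (exp (R ^ (ε / 2)))).ncard`, the second set being finite (hypothesis
`hfin`), and `lowerK`.
-/

set_option autoImplicit false

namespace Pool.Agent.Work.MP_a793bb_nt.RadL

open NumberField IsDedekindDomain Height Module LinearAlgebra.Projectivization

theorem lower_radPts_sharp (K : Type*) [Field K] [NumberField K] (ε : ℝ) (hε : 0 < ε)
    (hfin : ∀ R : ℝ, (radPts K R (Real.exp (R ^ (ε / 2)))).Finite) :
    ∃ c R₀ : ℝ, 0 < c ∧ ∀ R : ℝ, R₀ ≤ R →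
      c * R ^ (2 / 3 : ℝ) ≤ ((radPts K R (Real.exp (R ^ (ε / 2)))).ncard : ℝ) := by
  obtain ⟨c, R0, hc, _, h⟩ := lowerK K ε hε
  refine ⟨c, R0, hc, fun R hR => (h R hR).trans ?_⟩
  have hd0 : (0 : ℝ) < (Module.finrank ℚ K : ℝ) := by exact_mod_cast Module.finrank_pos
  have hle : (rset K ε R).ncard ≤ (radPts K R (Real.exp (R ^ (ε / 2)))).ncard := by
    rw [← Set.ncard_image_of_injective (rset K ε R) (BPlus.ptOf_injective (K := K))]
    apply Set.ncard_le_ncard _ (hfin R)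
    rintro _ ⟨t, ⟨h0, h1, h2, h3⟩, rfl⟩
    have e1 : ht t (1 - t) (-1) = logHeight ![t, 1 - t, -1] / (Module.finrank ℚ K : ℝ) := rfl
    have e2 : rad t (1 - t) (-1) = Rs (Ip t) / (Module.finrank ℚ K : ℝ) := rfl
    refine ⟨t, 1 - t, -1, BPlus.vec_ne_zero t, rfl, by ring, ?_, ?_, ?_⟩
    · exact mul_ne_zero (mul_ne_zero h0 (sub_ne_zero.mpr (Ne.symm h1))) (by simp)
    · rw [e2, mul_div_cancel₀ _ hd0.ne']
      exact h2
    · rw [e1, div_le_iff₀ hd0, mul_comm]
      exact h3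
  exact_mod_cast hle

end Pool.Agent.Work.MP_a793bb_nt.RadL
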