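import Pool.Agent.Work.MP_a793bb_nt.FiniteClass

/-!
# Packing

Proof. Let `d = finrank ℚ K`, `N = absNorm I ≥ 1`, `s = N ^ (1 / d) ≥ 1`. Two distinct elements `x, y` of `A`
satisfy `∏ v, v (x - y) ^ mult v = |N(x - y)| ≥ N` (`InfinitePlace.prod_eq_abs_norm`;
`Ideal.span {x - y} ≤ I`, so `absNorm I` divides `absNorm (span {x - y})`, which is `|N(x - y)|`), so some
`v` has `v (x - y) ≥ s` (otherwise the product is `< s ^ d = N`, `InfinitePlace.sum_mult_eq`). Consider the map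
`F x = (⌊2 Re (v.embedding x) / s⌋, ⌊2 Im (v.embedding x) / s⌋)_v`. If `F x = F y` then
`|Re|, |Im| of v.embedding (x - y)` are less than `s / 2`, so `v (x - y) < s` for all `v`, so
`x = y`. For `x ∈ A` the entries lie in `Icc ⌊-2 T / s⌋ ⌊2 T / s⌋`, of cardinality at most `4 T / s + 2`,
and for a real place the second entry is `0`. So
`A.card ≤ ∏ v, (4 T / s + 2) ^ mult v = (4 T / s + 2) ^ d ≤ 4 ^ d (1 + T / s) ^ d
≤ 8 ^ d (1 + (T / s) ^ d) = 8 ^ d (1 + T ^ d / N)`; `C = 8 ^ d`. (If `T < 0` then `A` is empty or `K` has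
no infinite place; so `0 ≤ T` is assumed.)
-/

set_option autoImplicit false

namespace Pool.Agent.Work.MP_a793bb_nt.RadL

open NumberField IsDedekindDomain Module

theorem prod_place {K : Type*} [Field K] [NumberField K] (a : 𝓞 K) :
    ∏ v : InfinitePlace K, v (a : K) ^ v.mult = (Ideal.absNorm (Ideal.span {a}) : ℝ) := by
  rw [InfinitePlace.prod_eq_abs_norm, Ideal.absNorm_span_singleton]
  have h := Algebra.coe_norm_int a
  rw [← Int.cast_natCast, Int.natCast_natAbs, Int.cast_abs]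
  have h2 : ((Algebra.norm ℤ a : ℤ) : ℚ) = Algebra.norm ℚ (a : K) := h
  rw [← h2]
  push_cast
  rfl

theorem absNorm_le_of_mem {K : Type*} [Field K] [NumberField K] {I : Ideal (𝓞 K)} {z : 𝓞 K}
    (hz : z ≠ 0) (h : z ∈ I) :
    (Ideal.absNorm I : ℝ) ≤ ∏ v : InfinitePlace K, v (z : K) ^ v.mult := by
  rw [prod_place]
  have h1 : Ideal.absNorm I ∣ Ideal.absNorm (Ideal.span {z}) :=
    Ideal.absNorm_dvd_absNorm_of_le ((Ideal.span_singleton_le_iff_mem I).2 h)
  have h2 : Ideal.absNorm (Ideal.span {z}) ≠ 0 := by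
    rw [Ne, Ideal.absNorm_eq_zero_iff]
    simpa using hz
  exact_mod_cast Nat.le_of_dvd (Nat.pos_of_ne_zero h2) h1

private theorem lp_card {a : ℝ} (ha : 0 ≤ a) :
    ((Finset.Icc ⌊-a⌋ ⌊a⌋).card : ℝ) ≤ 2 * a + 2 := by
  rw [Int.card_Icc]
  have h1 : ⌊-a⌋ ≤ ⌊a⌋ := Int.floor_le_floor (by linarith)
  have h2 : (((⌊a⌋ + 1 - ⌊-a⌋).toNat : ℕ) : ℤ) = ⌊a⌋ + 1 - ⌊-a⌋ := Int.toNat_of_nonneg (by omega)
  have h3 : (((⌊a⌋ + 1 - ⌊-a⌋).toNat : ℕ) : ℝ) = (⌊a⌋ : ℝ) + 1 - ⌊-a⌋ := by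
    exact_mod_cast congrArg (fun z : ℤ => (z : ℝ)) h2
  rw [h3]
  have h4 := Int.floor_le a
  have h5 := Int.lt_floor_add_one (-a)
  linarith

private theorem lp_mem {x a : ℝ} (h : |x| ≤ a) : ⌊x⌋ ∈ Finset.Icc ⌊-a⌋ ⌊a⌋ := by
  rw [abs_le] at h
  rw [Finset.mem_Icc]
  exact ⟨Int.floor_le_floor h.1, Int.floor_le_floor h.2⟩

private theorem lp_close {s x y : ℝ} (hs : 0 < s) (h : ⌊2 * x / s⌋ = ⌊2 * y / s⌋) :
    |x - y| < s / 2 := by
  have h1 := Int.floor_le (2 * x / s)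
  have h2 := Int.lt_floor_add_one (2 * x / s)
  have h3 := Int.floor_le (2 * y / s)
  have h4 := Int.lt_floor_add_one (2 * y / s)
  rw [h] at h1 h2
  have e1 : 2 * x / s - 2 * y / s < 1 := by linarith
  have e2 : -1 < 2 * x / s - 2 * y / s := by linarith
  rw [← sub_div, div_lt_one hs] at e1
  rw [← sub_div, lt_div_iff₀ hs] at e2
  rw [abs_lt]
  constructor <;> linarith

theorem pack (K : Type*) [Field K] [NumberField K] : ∃ C : ℝ, 1 ≤ C ∧
    ∀ (I : Ideal (𝓞 K)) (T : ℝ) (A : Finset (𝓞 K)), I ≠ ⊥ → 0 ≤ T →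
      (∀ x ∈ A, ∀ v : InfinitePlace K, v (x : K) ≤ T) → (∀ x ∈ A, ∀ y ∈ A, x - y ∈ I) →
      (A.card : ℝ) ≤ C * (1 + T ^ finrank ℚ K / (Ideal.absNorm I : ℝ)) := by
  classical
  refine ⟨8 ^ finrank ℚ K, one_le_pow₀ (by norm_num), fun I T A hI hT hA hI2 => ?_⟩
  obtain ⟨d, hd⟩ : ∃ d, d = finrank ℚ K := ⟨_, rfl⟩
  have hd0 : d ≠ 0 := by rw [hd]; exact finrank_pos.ne'
  rw [← hd]
  have hN0 : Ideal.absNorm I ≠ 0 := by rwa [Ne, Ideal.absNorm_eq_zero_iff]
  have hN1 : (1 : ℝ) ≤ (Ideal.absNorm I : ℝ) := by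
    exact_mod_cast Nat.one_le_iff_ne_zero.2 hN0
  obtain ⟨s, hs1, hsd⟩ : ∃ s : ℝ, 1 ≤ s ∧ s ^ d = (Ideal.absNorm I : ℝ) :=
    ⟨(Ideal.absNorm I : ℝ) ^ ((d : ℝ)⁻¹), Real.one_le_rpow hN1 (by positivity),
      Real.rpow_inv_natCast_pow (by linarith) hd0⟩
  have hs0 : 0 < s := by linarith
  let F : 𝓞 K → (InfinitePlace K → ℤ × ℤ) := fun x v =>
    (⌊2 * (v.embedding (x : K)).re / s⌋, ⌊2 * (v.embedding (x : K)).im / s⌋)
  have hinj : Set.InjOn F (A : Set (𝓞 K)) := by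
    intro x hx y hy hxy
    by_contra hne
    have hz : x - y ≠ 0 := sub_ne_zero.2 hne
    have h1 := absNorm_le_of_mem hz (hI2 x hx y hy)
    have h3 : ∀ v : InfinitePlace K, v ((x - y : 𝓞 K) : K) < s := by
      intro v
      have h4 := congrFun hxy v
      simp only [F, Prod.mk.injEq] at h4
      have h5 := lp_close hs0 h4.1
      have h6 := lp_close hs0 h4.2
      rw [← v.norm_embedding_eq]
      have h7 : v.embedding ((x - y : 𝓞 K) : K) = v.embedding (x : K) - v.embedding (y : K) := by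
        push_cast
        rw [map_sub]
      rw [h7]
      refine (Complex.norm_le_abs_re_add_abs_im _).trans_lt ?_
      rw [Complex.sub_re, Complex.sub_im]
      linarith
    have h2 : ∏ v : InfinitePlace K, v ((x - y : 𝓞 K) : K) ^ v.mult < s ^ d := by
      rw [hd, ← InfinitePlace.sum_mult_eq, ← Finset.prod_pow_eq_pow_sum]
      have hz' : ((x - y : 𝓞 K) : K) ≠ 0 := by exact_mod_cast hz
      refine Finset.prod_lt_prod_of_nonempty ?_ ?_ Finset.univ_nonempty
      · intro v _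
        exact pow_pos (InfinitePlace.pos_iff.2 hz') _
      · intro v _
        exact pow_lt_pow_left₀ (h3 v) (apply_nonneg _ _) InfinitePlace.mult_ne_zero
    rw [hsd] at h2
    linarith
  -- the range
  obtain ⟨a, ha⟩ : ∃ a : ℝ, a = 2 * T / s := ⟨_, rfl⟩
  have ha0 : 0 ≤ a := by rw [ha]; positivity
  let G : InfinitePlace K → Finset (ℤ × ℤ) := fun v =>
    Finset.Icc ⌊-a⌋ ⌊a⌋ ×ˢ (if v.IsReal then {0} else Finset.Icc ⌊-a⌋ ⌊a⌋)
  have hmem : ∀ x ∈ A, F x ∈ Fintype.piFinset G := by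
    intro x hx
    rw [Fintype.mem_piFinset]
    intro v
    have h1 : ‖v.embedding (x : K)‖ ≤ T := by
      rw [v.norm_embedding_eq]
      exact hA x hx v
    have hre : |2 * (v.embedding (x : K)).re / s| ≤ a := by
      rw [abs_div, abs_mul, abs_two, abs_of_pos hs0, ha]
      gcongr
      exact (Complex.abs_re_le_norm _).trans h1
    have him : |2 * (v.embedding (x : K)).im / s| ≤ a := by
      rw [abs_div, abs_mul, abs_two, abs_of_pos hs0, ha]
      gcongr
      exact (Complex.abs_im_le_norm _).trans h1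
    simp only [G, F, Finset.mem_product]
    refine ⟨lp_mem hre, ?_⟩
    split_ifs with hv
    · have h2 : (v.embedding (x : K)).im = 0 := by
        rw [← InfinitePlace.embedding_of_isReal_apply hv]
        exact Complex.ofReal_im _
      rw [h2]
      simp
    · exact lp_mem him
  have hcard : A.card ≤ ∏ v, (G v).card := by
    rw [← Fintype.card_piFinset]
    exact Finset.card_le_card_of_injOn F hmem hinj
  have hG : ∀ v : InfinitePlace K, ((G v).card : ℝ) ≤ (2 * a + 2) ^ v.mult := by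
    intro v
    have h1 := lp_card ha0
    simp only [G, Finset.card_product]
    push_cast
    split_ifs with hv
    · rw [Finset.card_singleton, InfinitePlace.mult_isReal ⟨v, hv⟩, pow_one]
      simpa using h1
    · have hv' : v.IsComplex := InfinitePlace.not_isReal_iff_isComplex.1 hv
      rw [InfinitePlace.mult_isComplex ⟨v, hv'⟩, sq]
      exact mul_le_mul h1 h1 (by positivity) (by positivity)
  have h1 : (A.card : ℝ) ≤ (2 * a + 2) ^ d := by
    calc (A.card : ℝ) ≤ ((∏ v, (G v).card : ℕ) : ℝ) := by exact_mod_cast hcard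
      _ = ∏ v, ((G v).card : ℝ) := by push_cast; rfl
      _ ≤ ∏ v : InfinitePlace K, (2 * a + 2) ^ v.mult :=
          Finset.prod_le_prod (fun v _ => by positivity) fun v _ => hG v
      _ = (2 * a + 2) ^ d := by
          rw [Finset.prod_pow_eq_pow_sum, InfinitePlace.sum_mult_eq, hd]
  obtain ⟨t, ht⟩ : ∃ t : ℝ, t = T / s := ⟨_, rfl⟩
  have ht0 : 0 ≤ t := by rw [ht]; positivity
  have hat : 2 * a + 2 = 4 * t + 2 := by rw [ha, ht]; ring
  have h2 : 4 * t + 2 ≤ 8 * max 1 t := by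
    have e1 := le_max_left 1 t
    have e2 := le_max_right 1 t
    linarith
  have h3 : (max 1 t) ^ d ≤ 1 + t ^ d := by
    rcases le_total 1 t with h | h
    · rw [max_eq_right h]
      linarith
    · rw [max_eq_left h, one_pow]
      have := pow_nonneg ht0 d
      linarith
  have h4 : T ^ d / (Ideal.absNorm I : ℝ) = t ^ d := by rw [← hsd, ht, div_pow]
  rw [h4]
  calc (A.card : ℝ) ≤ (2 * a + 2) ^ d := h1
    _ = (4 * t + 2) ^ d := by rw [hat]
    _ ≤ (8 * max 1 t) ^ d := pow_le_pow_left₀ (by positivity) h2 d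
    _ = 8 ^ d * (max 1 t) ^ d := mul_pow _ _ _
    _ ≤ 8 ^ d * (1 + t ^ d) := mul_le_mul_of_nonneg_left h3 (by positivity)

end Pool.Agent.Work.MP_a793bb_nt.RadL
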