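import Pool.Agent.Work.MP_a793bb_nt.FiniteClass
import Pool.Agent.Work.MP_a793bb_nt.PairCount

/-!
# Sums over primes

Proofs. `card_primes_le`: `p ↦ p.asIdeal` is injective with values in `idealsLe K X`; `card_idealsLe`.
`tail_sum`: let `C0` be the constant of `card_primes_le`. For `p ∈ F` let `k p` be the natural number with
`2 ^ k ≤ Np p / y < 2 ^ (k + 1)` (`Nat.log 2 ⌊Np p / y⌋₊`, as `Np p / y > 1`). The number of `p ∈ F` with
`k p = k` is at most `C0 2 ^ (k + 1) y`, and for these `1 / Np p ^ 2 ≤ 1 / (2 ^ k y) ^ 2`, so their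
contribution is at most `2 C0 / (2 ^ k y)`; sum over `k` (a finite set of `k`, `∑ 1 / 2 ^ k ≤ 2`):
`4 C0 / y`.
-/

set_option autoImplicit false

namespace Pool.Agent.Work.MP_a793bb_nt.RadL

open NumberField IsDedekindDomain

theorem card_primes_le (K : Type*) [Field K] [NumberField K] : ∃ C : ℝ, 1 ≤ C ∧
    ∀ (X : ℝ) (F : Finset (HeightOneSpectrum (𝓞 K))), 0 ≤ X → (∀ p ∈ F, Np p ≤ X) →
      (F.card : ℝ) ≤ C * X := by
  obtain ⟨C, hC1, hC⟩ := card_idealsLe K
  refine ⟨C, hC1, fun X F hX hF => ?_⟩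
  have h0 : F.card ≤ (idealsLe K X).ncard := by
    rw [Set.ncard_eq_toFinset_card _ (finite_idealsLe K X)]
    refine Finset.card_le_card_of_injOn (fun p => p.asIdeal) ?_ ?_
    · intro p hp
      simp only [Set.Finite.coe_toFinset]
      exact ⟨p.ne_bot, hF p hp⟩
    · intro p _ q _ h
      exact HeightOneSpectrum.ext h
  have h1 : (F.card : ℝ) ≤ ((idealsLe K X).ncard : ℝ) := by exact_mod_cast h0
  exact h1.trans (hC X hX)

theorem tail_sum (K : Type*) [Field K] [NumberField K] : ∃ C : ℝ, 1 ≤ C ∧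
    ∀ (y : ℝ) (F : Finset (HeightOneSpectrum (𝓞 K))), 1 ≤ y → (∀ p ∈ F, y < Np p) →
      ∑ p ∈ F, 1 / Np p ^ 2 ≤ C / y := by
  classical
  obtain ⟨C, hC1, hC⟩ := card_primes_le K
  refine ⟨4 * C, by linarith, fun y F hy hF => ?_⟩
  have hy0 : 0 < y := by linarith
  set k : HeightOneSpectrum (𝓞 K) → ℕ := fun p => Nat.log 2 ⌊Np p / y⌋₊ with hk
  rw [← Finset.sum_fiberwise_of_maps_to (g := k) (t := F.image k)
    (fun p hp => Finset.mem_image_of_mem _ hp)]
  have hterm : ∀ j ∈ F.image k, ∑ p ∈ F with k p = j, 1 / Np p ^ 2 ≤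
      2 * C / y * (1 / 2 : ℝ) ^ j := by
    intro j _
    have hlo : ∀ p ∈ F.filter (fun p => k p = j), (2 : ℝ) ^ j * y ≤ Np p ∧ Np p ≤ 2 ^ (j + 1) * y := by
      intro p hp
      rw [Finset.mem_filter] at hp
      have h1 : 1 < Np p / y := by
        rw [lt_div_iff₀ hy0]
        linarith [hF p hp.1]
      have h2 : ⌊Np p / y⌋₊ ≠ 0 := by
        have : 1 ≤ ⌊Np p / y⌋₊ := by
          rw [Nat.one_le_floor_iff]
          exact h1.le
        omega
      have h3 : Nat.log 2 ⌊Np p / y⌋₊ = j := hp.2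
      constructor
      · have h4 := Nat.pow_log_le_self 2 h2
        rw [h3] at h4
        have h5 : (2 : ℝ) ^ j ≤ (⌊Np p / y⌋₊ : ℝ) := by exact_mod_cast h4
        have h6 : (⌊Np p / y⌋₊ : ℝ) ≤ Np p / y := Nat.floor_le (by linarith)
        exact (le_div_iff₀ hy0).mp (h5.trans h6)
      · have h4 := Nat.lt_pow_succ_log_self (b := 2) (by norm_num) ⌊Np p / y⌋₊
        rw [h3] at h4
        have h5 : ⌊Np p / y⌋₊ + 1 ≤ 2 ^ (j + 1) := h4
        have h6 : (⌊Np p / y⌋₊ : ℝ) + 1 ≤ 2 ^ (j + 1) := by exact_mod_cast h5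
        have h7 : Np p / y < (⌊Np p / y⌋₊ : ℝ) + 1 := Nat.lt_floor_add_one _
        have h8 : Np p / y ≤ 2 ^ (j + 1) := h7.le.trans h6
        exact (div_le_iff₀ hy0).mp h8
    have hcard := hC (2 ^ (j + 1) * y) (F.filter (fun p => k p = j)) (by positivity)
      (fun p hp => (hlo p hp).2)
    have hb : ∀ p ∈ F.filter (fun p => k p = j), 1 / Np p ^ 2 ≤ 1 / ((2 : ℝ) ^ j * y) ^ 2 := by
      intro p hp
      apply one_div_le_one_div_of_le (by positivity)
      exact pow_le_pow_left₀ (by positivity) (hlo p hp).1 2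
    refine (Finset.sum_le_card_nsmul _ _ _ hb).trans ?_
    rw [nsmul_eq_mul]
    refine (mul_le_mul_of_nonneg_right hcard (by positivity)).trans (le_of_eq ?_)
    have h2j : (2 : ℝ) ^ j ≠ 0 := by positivity
    rw [one_div_pow]
    field_simp
    ring
  refine (Finset.sum_le_sum hterm).trans ?_
  rw [← Finset.mul_sum]
  have hs : ∑ j ∈ F.image k, (1 / 2 : ℝ) ^ j ≤ 2 := by
    refine (Summable.sum_le_tsum _ (fun i _ => by positivity) summable_geometric_two).trans ?_
    rw [tsum_geometric_two]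
  calc 2 * C / y * ∑ j ∈ F.image k, (1 / 2 : ℝ) ^ j ≤ 2 * C / y * 2 :=
        mul_le_mul_of_nonneg_left hs (by positivity)
    _ = 4 * C / y := by ring

end Pool.Agent.Work.MP_a793bb_nt.RadL
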