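import Pool.Agent.Work.MP_a793bb_nt.RadL.LowDefs

/-!
# Many elements of `boxA`

Proofs. `finite_boxA`: the height is bounded (`mulHeight₁_int_le` with `max (3 T) 1`, and
`NumberField.finite_setOfPred_mulHeight₁_le`, see `finite_boxSix`).
`card_boxA_ge` (compare `card_boxSix_ge` in `RatioCount.lean`): let `b` be the integral basis,
`M' ≥ 1` with `∑ j, v (b j) ≤ M'` for all `v`, `N0 = ⌈2 T / m⌉₊`, `N = ⌊T / (2 m M')⌋₊`. For
`k : ι → Fin (N + 1)` let `φ k = 1 + m (N0 + ∑ j, k j b j)`. It is injective (`m ≠ 0`), and for every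
infinite place `v`, with `2 T ≤ m N0 ≤ 2 T + m`, `v (m ∑ j, k j b j) ≤ m N M' ≤ T / 2`:
`v (φ k) ≥ 1 + m N0 - T / 2 ≥ 3 T / 2 ≥ T` and `v (φ k) ≤ 1 + 2 T + m + T / 2 ≤ 3 T` if `T ≥ 2 (m + 1)`.
So `ncard ≥ (N + 1) ^ d ≥ (T / (2 m M')) ^ d`; `c = (1 / (2 M')) ^ d`, `T0 = 2 (m + 1)`.
-/

set_option autoImplicit false

namespace Pool.Agent.Work.MP_a793bb_nt.RadL

open NumberField IsDedekindDomain Height Module

theorem finite_boxA (K : Type*) [Field K] [NumberField K] (m : ℕ) (T : ℝ) :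
    (boxA K m T).Finite := by
  have hT : 1 ≤ max (3 * T) 1 := le_max_right _ _
  have h := NumberField.finite_setOfPred_mulHeight₁_le K ((max (3 * T) 1) ^ finrank ℚ K)
  refine Set.Finite.of_finite_image (f := fun u : 𝓞 K => (u : K)) (h.subset ?_) ?_
  · rintro _ ⟨u, hu, rfl⟩
    exact mulHeight₁_int_le hT fun v => (hu.2 v).2.trans (le_max_left _ _)
  · intro u _ v _ h
    exact RingOfIntegers.ext h

theorem card_boxA_ge (K : Type*) [Field K] [NumberField K] : ∃ c : ℝ, 0 < c ∧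
    ∀ m : ℕ, 1 ≤ m → ∃ T0 : ℝ, 1 ≤ T0 ∧ ∀ T : ℝ, T0 ≤ T →
      c * (T / m) ^ finrank ℚ K ≤ ((boxA K m T).ncard : ℝ) := by
  classical
  set b := RingOfIntegers.basis K with hb
  set ι := Free.ChooseBasisIndex ℤ (𝓞 K) with hι
  obtain ⟨M, hM⟩ : ∃ M : ℝ, ∀ v : InfinitePlace K, ∑ j, v (b j : K) ≤ M := by
    obtain ⟨M, hM⟩ := (Set.finite_range fun v : InfinitePlace K => ∑ j, v (b j : K)).bddAbove
    exact ⟨M, fun v => hM ⟨v, rfl⟩⟩
  set M' := max M 1 with hM'
  have hM1 : 1 ≤ M' := le_max_right _ _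
  have hMM : ∀ v : InfinitePlace K, ∑ j, v (b j : K) ≤ M' := fun v => (hM v).trans (le_max_left _ _)
  have hcard : Fintype.card ι = finrank ℚ K := by
    rw [← RingOfIntegers.rank K, finrank_eq_card_chooseBasisIndex]
  refine ⟨(1 / (2 * M')) ^ finrank ℚ K, by positivity, fun m hm => ?_⟩
  have hm1 : (1 : ℝ) ≤ m := by exact_mod_cast hm
  have hm0 : (0 : ℝ) < m := by linarith
  refine ⟨2 * (m + 1), by linarith, fun T hT => ?_⟩
  have hT0 : 0 < T := by linarith
  set N0 := ⌈2 * T / m⌉₊ with hN0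
  set N := ⌊T / (2 * m * M')⌋₊ with hN
  let φ : (ι → Fin (N + 1)) → 𝓞 K := fun n =>
    1 + (m : 𝓞 K) * ((N0 : 𝓞 K) + ∑ j, ((n j : ℕ) : ℤ) • b j)
  have hφinj : Function.Injective φ := by
    intro n n' h
    simp only [φ, add_right_inj] at h
    have h6 : (m : 𝓞 K) ≠ 0 := by
      rw [Ne, Nat.cast_eq_zero]
      omega
    have h1 := add_left_cancel (mul_left_cancel₀ h6 h)
    have h2 : ∀ n : ι → Fin (N + 1), ∀ j, b.repr (∑ j, ((n j : ℕ) : ℤ) • b j) j = ((n j : ℕ) : ℤ) := by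
      intro n j
      exact Basis.repr_sum_self b (fun j => ((n j : ℕ) : ℤ)) ▸ rfl
    ext j
    have h3 := h2 n j
    rw [h1, h2 n' j] at h3
    exact_mod_cast h3.symm
  have hN0a : 2 * T ≤ m * N0 := by
    have := Nat.le_ceil (2 * T / m)
    rw [div_le_iff₀ hm0] at this
    linarith
  have hN0b : (m : ℝ) * N0 ≤ 2 * T + m := by
    have := (Nat.ceil_lt_add_one (show 0 ≤ 2 * T / m by positivity)).le
    have h1 : (m : ℝ) * N0 ≤ m * (2 * T / m + 1) := mul_le_mul_of_nonneg_left this hm0.le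
    have h2 : (m : ℝ) * (2 * T / m + 1) = 2 * T + m := by
      field_simp
    linarith
  have h6M : 0 < 2 * m * M' := by positivity
  have hNle : (m : ℝ) * (N * M') ≤ T / 2 := by
    have := Nat.floor_le (div_nonneg hT0.le h6M.le)
    rw [le_div_iff₀ h6M] at this
    linarith
  have hφmem : ∀ n, φ n ∈ boxA K m T := by
    intro n
    refine ⟨⟨_, rfl⟩, fun v => ?_⟩
    have e1 : ((φ n : 𝓞 K) : K) = ((1 + m * N0 : ℕ) : K) +
        (m : K) * ∑ j, ((n j : ℕ) : K) * (b j : K) := by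
      have e2 : ((φ n : 𝓞 K) : K) = algebraMap (𝓞 K) K (φ n) := rfl
      rw [e2]
      simp only [φ]
      rw [map_add, map_mul, map_add, map_one, map_natCast, map_natCast, map_sum]
      simp only [zsmul_eq_mul, map_mul, map_intCast, Int.cast_natCast]
      push_cast
      ring
    rw [e1]
    have hvn : ∀ k : ℕ, v (k : K) = k := by
      intro k
      rw [← v.norm_embedding_eq, map_natCast]; simp
    have hsum : v (∑ j, ((n j : ℕ) : K) * (b j : K)) ≤ N * M' := by
      calc v (∑ j, ((n j : ℕ) : K) * (b j : K)) ≤ ∑ j, v (((n j : ℕ) : K) * (b j : K)) := by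
            exact v.1.sum_le _ _
        _ ≤ ∑ j, N * v (b j : K) := by
            refine Finset.sum_le_sum fun j _ => ?_
            rw [map_mul, hvn]
            apply mul_le_mul_of_nonneg_right _ (apply_nonneg _ _)
            exact_mod_cast Nat.lt_succ_iff.mp (n j).2
        _ = N * ∑ j, v (b j : K) := by rw [Finset.mul_sum]
        _ ≤ N * M' := mul_le_mul_of_nonneg_left (hMM v) (by positivity)
    have hsm : v ((m : K) * ∑ j, ((n j : ℕ) : K) * (b j : K)) ≤ T / 2 := by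
      rw [map_mul, hvn]
      exact (mul_le_mul_of_nonneg_left hsum hm0.le).trans hNle
    have hv1 : v (((1 + m * N0 : ℕ) : K)) = 1 + m * N0 := by
      rw [hvn]
      push_cast
      ring
    constructor
    · have h := v.1.le_add ((1 + m * N0 : ℕ) : K) ((m : K) * ∑ j, ((n j : ℕ) : K) * (b j : K))
      have h' : v (((1 + m * N0 : ℕ) : K)) - v ((m : K) * ∑ j, ((n j : ℕ) : K) * (b j : K)) ≤
          v (((1 + m * N0 : ℕ) : K) + (m : K) * ∑ j, ((n j : ℕ) : K) * (b j : K)) := h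
      rw [hv1] at h'
      linarith
    · have h := v.1.add_le ((1 + m * N0 : ℕ) : K) ((m : K) * ∑ j, ((n j : ℕ) : K) * (b j : K))
      have h' : v (((1 + m * N0 : ℕ) : K) + (m : K) * ∑ j, ((n j : ℕ) : K) * (b j : K)) ≤
          v (((1 + m * N0 : ℕ) : K)) + v ((m : K) * ∑ j, ((n j : ℕ) : K) * (b j : K)) := h
      rw [hv1] at h'
      linarith
  have h1 : (N + 1) ^ finrank ℚ K ≤ (boxA K m T).ncard := by
    have h2 : (Set.range φ).ncard = (N + 1) ^ finrank ℚ K := by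
      rw [← Set.image_univ, Set.ncard_image_of_injective _ hφinj, Set.ncard_univ,
        Nat.card_eq_fintype_card, Fintype.card_fun, Fintype.card_fin, hcard]
    rw [← h2]
    apply Set.ncard_le_ncard _ (finite_boxA K m T)
    rintro _ ⟨n, rfl⟩
    exact hφmem n
  have h2 : T / (2 * m * M') ≤ N + 1 := (Nat.lt_floor_add_one (T / (2 * m * M'))).le
  calc (1 / (2 * M')) ^ finrank ℚ K * (T / m) ^ finrank ℚ K = (T / (2 * m * M')) ^ finrank ℚ K := by
        rw [← mul_pow]; congr 1; field_simp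
    _ ≤ ((N : ℝ) + 1) ^ finrank ℚ K := pow_le_pow_left₀ (by positivity) h2 _
    _ ≤ ((boxA K m T).ncard : ℝ) := by exact_mod_cast h1

end Pool.Agent.Work.MP_a793bb_nt.RadL
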