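import Pool.Agent.Work.MP_a793bb_nt.RadL.LowBox
import Pool.Agent.Work.MP_a793bb_nt.RadL.LowPack
import Pool.Agent.Work.MP_a793bb_nt.RadL.LowTail

/-!
# Many coprime pairs

Proof. Let `d = finrank ℚ K`, `c0` from `card_boxA_ge`, `C1` from `pack`, `C2` from `card_primes_le`, `C3` from
`tail_sum`. Choose a natural number `y ≥ 1` with `2 C1 ^ 2 9 ^ d C3 / y ≤ c0 ^ 2 / 4` and `m = y !` (factorial). For
large `T` put `B = boxA K m T` (finite), so `B.ncard ≥ c0 (T / m) ^ d`.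
If a prime `p` contains both elements of a pair of `B × B`, then `Np p > y`: otherwise `Np p` (a
natural number `≤ y`) divides `m`, and `Np p ∈ p` (`Ideal.absNorm_mem`), so `m ∈ p` and
`1 = u - m s ∈ p`, a contradiction. And `Np p ≤ |N(u)| ≤ (3 T) ^ d` as `u ≠ 0` (`v u ≥ T > 0`; see
`pack` for norms).
The set of `u ∈ B` with `u ∈ p` has pairwise differences in `(m) ⊓ p = (m) * p`: they are
coprime ideals because `m ∉ p` (same argument, `p` maximal), so differences lie in an ideal of norm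
`m ^ d * Np p` (`Ideal.absNorm_span_singleton`, norm of a natural number is `m ^ d`), and `pack` with `3 T` gives
at most `C1 (1 + (3 T) ^ d / (m ^ d Np p))` elements. So the number of pairs with a common prime is at most
`∑_p C1 ^ 2 (1 + (3 T) ^ d / (m ^ d Np p)) ^ 2
≤ 2 C1 ^ 2 (number of p with Np p ≤ (3 T) ^ d) + 2 C1 ^ 2 9 ^ d (T / m) ^ (2 d) ∑_{Np p > y} 1 / Np p ^ 2
≤ 2 C1 ^ 2 C2 3 ^ d T ^ d + (c0 ^ 2 / 4) (T / m) ^ (2 d) ≤ (c0 ^ 2 / 2) (T / m) ^ (2 d)` for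
`T ≥ T0` (`T ^ d ≥ 8 C1 ^ 2 C2 3 ^ d m ^ (2 d) / c0 ^ 2`, which follows from `T ≥` the same number when `T ≥ 1`).
So at least `(c0 ^ 2 / 2) (T / m) ^ (2 d)` pairs are good; `c = c0 ^ 2 / (2 m ^ (2 d))`.
-/

set_option autoImplicit false

namespace Pool.Agent.Work.MP_a793bb_nt.RadL

open NumberField IsDedekindDomain Module

private theorem lc_natCast_notMem {K : Type*} [Field K] [NumberField K] {m : ℕ} {T : ℝ} {u : 𝓞 K}
    (hu : u ∈ boxA K m T) {p : HeightOneSpectrum (𝓞 K)} (hp : u ∈ p.asIdeal) :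
    (m : 𝓞 K) ∉ p.asIdeal := by
  intro hm
  obtain ⟨⟨s, hs⟩, -⟩ := hu
  have h1 : (1 : 𝓞 K) ∈ p.asIdeal := by
    have h2 : (1 : 𝓞 K) = u - (m : 𝓞 K) * s := by rw [hs]; ring
    rw [h2]
    exact p.asIdeal.sub_mem hp (p.asIdeal.mul_mem_right s hm)
  exact p.isPrime.ne_top ((Ideal.eq_top_iff_one _).2 h1)

private theorem lc_lt {K : Type*} [Field K] [NumberField K] {y : ℕ} {T : ℝ} {u : 𝓞 K}
    (hu : u ∈ boxA K y.factorial T) {p : HeightOneSpectrum (𝓞 K)} (hp : u ∈ p.asIdeal) :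
    (y : ℝ) < Np p := by
  by_contra h
  push Not at h
  have h1 : Ideal.absNorm p.asIdeal ≤ y := by
    unfold Np at h
    exact_mod_cast h
  have h0 : 0 < Ideal.absNorm p.asIdeal := by
    have := two_le_Np p
    unfold Np at this
    have h3 : (0 : ℝ) < (Ideal.absNorm p.asIdeal : ℝ) := by linarith
    exact_mod_cast h3
  obtain ⟨k, hk⟩ := Nat.dvd_factorial h0 h1
  refine lc_natCast_notMem hu hp ?_
  rw [hk]
  push_cast
  exact p.asIdeal.mul_mem_right _ (Ideal.absNorm_mem _)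

private theorem lc_ne {K : Type*} [Field K] [NumberField K] {m : ℕ} {T : ℝ} {u : 𝓞 K} (hT : 0 < T)
    (hu : u ∈ boxA K m T) : u ≠ 0 := by
  rintro rfl
  have h := (hu.2 (Classical.arbitrary _)).1
  simp at h
  linarith

private theorem lc_le {K : Type*} [Field K] [NumberField K] {m : ℕ} {T : ℝ} {u : 𝓞 K} (hT : 0 < T)
    (hu : u ∈ boxA K m T) {p : HeightOneSpectrum (𝓞 K)} (hp : u ∈ p.asIdeal) :
    Np p ≤ (3 * T) ^ finrank ℚ K := by
  have h1 := absNorm_le_of_mem (lc_ne hT hu) hp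
  unfold Np
  refine h1.trans ?_
  rw [← InfinitePlace.sum_mult_eq, ← Finset.prod_pow_eq_pow_sum]
  refine Finset.prod_le_prod (fun v _ => by positivity) fun v _ => ?_
  exact pow_le_pow_left₀ (apply_nonneg _ _) (hu.2 v).2 _

open Classical in
private theorem lc_card {K : Type*} [Field K] [NumberField K] {C1 : ℝ} (hC1 : 1 ≤ C1)
    (hpack : ∀ (I : Ideal (𝓞 K)) (T : ℝ) (A : Finset (𝓞 K)), I ≠ ⊥ → 0 ≤ T →
      (∀ x ∈ A, ∀ v : InfinitePlace K, v (x : K) ≤ T) → (∀ x ∈ A, ∀ y ∈ A, x - y ∈ I) →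
      (A.card : ℝ) ≤ C1 * (1 + T ^ finrank ℚ K / (Ideal.absNorm I : ℝ)))
    {m : ℕ} (hm : 1 ≤ m) {T : ℝ} (hT : 0 < T) (B : Finset (𝓞 K)) (hB : ∀ u ∈ B, u ∈ boxA K m T)
    (p : HeightOneSpectrum (𝓞 K)) :
    ((B.filter (fun u => u ∈ p.asIdeal)).card : ℝ) ≤
      C1 * (1 + 3 ^ finrank ℚ K * (T / m) ^ finrank ℚ K * (1 / Np p)) := by
  have hm0 : (0 : ℝ) < (m : ℝ) := by exact_mod_cast hm
  have hN0 : 0 < Np p := by linarith [two_le_Np p]
  rcases (B.filter (fun u => u ∈ p.asIdeal)).eq_empty_or_nonempty with h | ⟨u0, hu0⟩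
  · rw [h]
    simp only [Finset.card_empty, Nat.cast_zero]
    positivity
  rw [Finset.mem_filter] at hu0
  have hmp : (m : 𝓞 K) ∉ p.asIdeal := lc_natCast_notMem (hB _ hu0.1) hu0.2
  have hnorm : Ideal.absNorm (Ideal.span {(m : 𝓞 K)} * p.asIdeal) =
      m ^ finrank ℚ K * Ideal.absNorm p.asIdeal := by
    rw [map_mul, Ideal.absNorm_span_natCast, RingOfIntegers.rank]
  have hne : Ideal.span {(m : 𝓞 K)} * p.asIdeal ≠ ⊥ := by
    rw [Ne, ← Ideal.absNorm_eq_zero_iff, hnorm]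
    have h1 : Ideal.absNorm p.asIdeal ≠ 0 := by
      intro h2
      unfold Np at hN0
      rw [h2] at hN0
      simp at hN0
    exact mul_ne_zero (pow_ne_zero _ (by omega)) h1
  have h1 := hpack (Ideal.span {(m : 𝓞 K)} * p.asIdeal) (3 * T)
    (B.filter (fun u => u ∈ p.asIdeal)) hne (by positivity)
    (fun x hx v => ((hB x (Finset.mem_filter.1 hx).1).2 v).2) ?_
  · refine h1.trans (le_of_eq ?_)
    rw [hnorm]
    push_cast
    unfold Np
    unfold Np at hN0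
    rw [mul_pow, div_pow]
    field_simp
  · intro x hx y hy
    rw [Finset.mem_filter] at hx hy
    obtain ⟨⟨s, hs⟩, -⟩ := hB x hx.1
    obtain ⟨⟨t, ht⟩, -⟩ := hB y hy.1
    have h2 : x - y = (m : 𝓞 K) * (s - t) := by rw [hs, ht]; ring
    have h3 : (m : 𝓞 K) * (s - t) ∈ p.asIdeal := by
      rw [← h2]
      exact p.asIdeal.sub_mem hx.2 hy.2
    rw [h2]
    refine Ideal.mul_mem_mul (Ideal.mem_span_singleton_self _) ?_
    exact (p.isPrime.mem_or_mem h3).resolve_left hmp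

theorem coprime_pairs (K : Type*) [Field K] [NumberField K] : ∃ (c T0 : ℝ) (m : ℕ),
    0 < c ∧ 1 ≤ T0 ∧ 1 ≤ m ∧ ∀ T : ℝ, T0 ≤ T → ∃ P : Finset (𝓞 K × 𝓞 K),
      (∀ q ∈ P, GoodPair K m T q) ∧ c * T ^ (2 * finrank ℚ K) ≤ (P.card : ℝ) := by
  classical
  obtain ⟨c0, hc0, hbox⟩ := card_boxA_ge K
  obtain ⟨C1, hC1, hpack⟩ := pack K
  obtain ⟨C2, hC2, hprimes⟩ := card_primes_le K
  obtain ⟨C3, hC3, htail⟩ := tail_sum K
  obtain ⟨d, hd⟩ : ∃ d, d = finrank ℚ K := ⟨_, rfl⟩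
  have hd0 : d ≠ 0 := by rw [hd]; exact finrank_pos.ne'
  obtain ⟨y, hy⟩ := exists_nat_gt (8 * C1 ^ 2 * 9 ^ d * C3 / c0 ^ 2)
  have hypos : (0 : ℝ) < y := lt_of_le_of_lt (by positivity) hy
  have hy1 : (1 : ℝ) ≤ y := by
    have : 0 < y := by exact_mod_cast hypos
    exact_mod_cast this
  obtain ⟨m, hm⟩ : ∃ m, m = y.factorial := ⟨_, rfl⟩
  have hm1 : 1 ≤ m := by rw [hm]; exact Nat.factorial_pos y
  have hm0 : (0 : ℝ) < (m : ℝ) := by exact_mod_cast hm1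
  obtain ⟨T1, hT1, hboxm⟩ := hbox m hm1
  refine ⟨c0 ^ 2 / (2 * m ^ (2 * d)), max T1 (8 * C1 ^ 2 * C2 * 3 ^ d * m ^ (2 * d) / c0 ^ 2), m,
    by positivity, hT1.trans (le_max_left _ _), hm1, fun T hT => ?_⟩
  have hTT1 : T1 ≤ T := (le_max_left _ _).trans hT
  have hTbig : 8 * C1 ^ 2 * C2 * 3 ^ d * m ^ (2 * d) / c0 ^ 2 ≤ T := (le_max_right _ _).trans hT
  have hTone : 1 ≤ T := hT1.trans hTT1
  have hT0 : 0 < T := by linarith
  have hboxT := hboxm T hTT1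
  rw [← hd] at hboxT ⊢
  obtain ⟨B, hB⟩ : ∃ B : Finset (𝓞 K), B = (finite_boxA K m T).toFinset := ⟨_, rfl⟩
  have hBmem : ∀ u, u ∈ B ↔ u ∈ boxA K m T := fun u => by rw [hB, Set.Finite.mem_toFinset]
  have hBcard : (boxA K m T).ncard = B.card := by
    rw [hB, Set.ncard_eq_toFinset_card _ (finite_boxA K m T)]
  rw [hBcard] at hboxT
  -- the primes
  have hfin : {p : HeightOneSpectrum (𝓞 K) | Np p ≤ (3 * T) ^ d}.Finite := by
    have h1 : ((fun p : HeightOneSpectrum (𝓞 K) => p.asIdeal) ''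
        {p : HeightOneSpectrum (𝓞 K) | Np p ≤ (3 * T) ^ d}).Finite := by
      refine (finite_idealsLe K ((3 * T) ^ d)).subset ?_
      rintro _ ⟨p, hp, rfl⟩
      exact ⟨p.ne_bot, hp⟩
    refine Set.Finite.of_finite_image h1 ?_
    intro p _ q _ hpq
    exact HeightOneSpectrum.ext hpq
  obtain ⟨F, hF⟩ : ∃ F : Finset (HeightOneSpectrum (𝓞 K)),
    F = hfin.toFinset.filter (fun p => (y : ℝ) < Np p) := ⟨_, rfl⟩
  have hF1 : ∀ p ∈ F, Np p ≤ (3 * T) ^ d := by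
    intro p hp
    rw [hF, Finset.mem_filter, Set.Finite.mem_toFinset] at hp
    exact hp.1
  have hF2 : ∀ p ∈ F, (y : ℝ) < Np p := by
    intro p hp
    rw [hF, Finset.mem_filter] at hp
    exact hp.2
  -- the bad pairs
  have hcover : (B ×ˢ B).filter (fun q => ¬ GoodPair K m T q) ⊆
      F.biUnion (fun p => (B.filter (fun u => u ∈ p.asIdeal)) ×ˢ
        (B.filter (fun u => u ∈ p.asIdeal))) := by
    intro q hq
    rw [Finset.mem_filter, Finset.mem_product] at hq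
    obtain ⟨⟨h1, h2⟩, h3⟩ := hq
    have h1' := (hBmem _).1 h1
    have h2' := (hBmem _).1 h2
    unfold GoodPair at h3
    push Not at h3
    obtain ⟨p, hp1, hp2⟩ := h3 h1' h2'
    rw [Finset.mem_biUnion]
    refine ⟨p, ?_, ?_⟩
    · rw [hF, Finset.mem_filter, Set.Finite.mem_toFinset]
      refine ⟨?_, ?_⟩
      · have := lc_le hT0 h1' hp1
        rw [← hd] at this
        exact this
      · rw [hm] at h1'
        exact lc_lt h1' hp1
    · rw [Finset.mem_product, Finset.mem_filter, Finset.mem_filter]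
      exact ⟨⟨h1, hp1⟩, ⟨h2, hp2⟩⟩
  have hbad : (((B ×ˢ B).filter (fun q => ¬ GoodPair K m T q)).card : ℝ) ≤
      ∑ p ∈ F, (2 * C1 ^ 2 + 2 * C1 ^ 2 * 9 ^ d * (T / m) ^ (2 * d) * (1 / Np p ^ 2)) := by
    have h1 := (Finset.card_le_card hcover).trans Finset.card_biUnion_le
    calc (((B ×ˢ B).filter (fun q => ¬ GoodPair K m T q)).card : ℝ)
        ≤ ((∑ p ∈ F, ((B.filter (fun u => u ∈ p.asIdeal)) ×ˢ
        (B.filter (fun u => u ∈ p.asIdeal))).card : ℕ) : ℝ) := by exact_mod_cast h1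
      _ = ∑ p ∈ F, (((B.filter (fun u => u ∈ p.asIdeal)).card : ℝ)) ^ 2 := by
          push_cast
          refine Finset.sum_congr rfl fun p _ => ?_
          rw [Finset.card_product]
          push_cast
          ring
      _ ≤ _ := by
          refine Finset.sum_le_sum fun p _ => ?_
          have h2 := lc_card hC1 hpack hm1 hT0 B (fun u hu => (hBmem u).1 hu) p
          rw [← hd] at h2
          have h3 : (((B.filter (fun u => u ∈ p.asIdeal)).card : ℝ)) ^ 2 ≤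
              (C1 * (1 + 3 ^ d * (T / m) ^ d * (1 / Np p))) ^ 2 :=
            pow_le_pow_left₀ (by positivity) h2 2
          refine h3.trans ?_
          have h4 : (9 : ℝ) ^ d = (3 ^ d) ^ 2 := by
            rw [← pow_mul, mul_comm, pow_mul]
            norm_num
          have h5 : (T / m) ^ (2 * d) = ((T / m) ^ d) ^ 2 := by
            rw [← pow_mul, mul_comm]
          have h6 : 1 / Np p ^ 2 = (1 / Np p) ^ 2 := by rw [one_div_pow]
          rw [h4, h5, h6]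
          have h7 : 2 * C1 ^ 2 + 2 * C1 ^ 2 * (3 ^ d) ^ 2 * ((T / m) ^ d) ^ 2 * (1 / Np p) ^ 2 -
              (C1 * (1 + 3 ^ d * (T / m) ^ d * (1 / Np p))) ^ 2 =
              C1 ^ 2 * (1 - 3 ^ d * (T / m) ^ d * (1 / Np p)) ^ 2 := by ring
          have h8 : 0 ≤ C1 ^ 2 * (1 - 3 ^ d * (T / m) ^ d * (1 / Np p)) ^ 2 := by positivity
          linarith
  have hsum : ∑ p ∈ F, (2 * C1 ^ 2 + 2 * C1 ^ 2 * 9 ^ d * (T / m) ^ (2 * d) * (1 / Np p ^ 2)) ≤
      2 * C1 ^ 2 * (C2 * (3 * T) ^ d) +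
        2 * C1 ^ 2 * 9 ^ d * (T / m) ^ (2 * d) * (C3 / y) := by
    rw [Finset.sum_add_distrib, Finset.sum_const, nsmul_eq_mul, ← Finset.mul_sum]
    refine add_le_add ?_ ?_
    · rw [mul_comm]
      exact mul_le_mul_of_nonneg_left (hprimes _ F (by positivity) hF1) (by positivity)
    · exact mul_le_mul_of_nonneg_left (htail _ F hy1 hF2) (by positivity)
  -- numbers
  obtain ⟨W, hW⟩ : ∃ W : ℝ, W = (T / m) ^ (2 * d) := ⟨_, rfl⟩
  have hW0 : 0 < W := by rw [hW]; positivity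
  rw [← hW] at hsum hbad
  have hfirst : 2 * C1 ^ 2 * (C2 * (3 * T) ^ d) ≤ c0 ^ 2 / 4 * W := by
    have h1 : T ≤ T ^ d := by
      calc T = T ^ 1 := (pow_one T).symm
        _ ≤ T ^ d := pow_le_pow_right₀ hTone (Nat.one_le_iff_ne_zero.2 hd0)
    have h2 := hTbig.trans h1
    rw [div_le_iff₀ (by positivity)] at h2
    rw [hW, div_pow, mul_pow, show T ^ (2 * d) = T ^ d * T ^ d by rw [← pow_add]; ring_nf]
    rw [← mul_div_assoc, le_div_iff₀ (by positivity)]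
    have h3 := mul_le_mul_of_nonneg_left h2 (show (0 : ℝ) ≤ T ^ d / 4 by positivity)
    calc 2 * C1 ^ 2 * (C2 * (3 ^ d * T ^ d)) * (m : ℝ) ^ (2 * d)
        = T ^ d / 4 * (8 * C1 ^ 2 * C2 * 3 ^ d * m ^ (2 * d)) := by ring
      _ ≤ T ^ d / 4 * (T ^ d * c0 ^ 2) := h3
      _ = c0 ^ 2 / 4 * (T ^ d * T ^ d) := by ring
  have hsecond : 2 * C1 ^ 2 * 9 ^ d * W * (C3 / y) ≤ c0 ^ 2 / 4 * W := by
    rw [div_lt_iff₀ (by positivity)] at hy
    have h1 : 2 * C1 ^ 2 * 9 ^ d * C3 ≤ c0 ^ 2 / 4 * y := by linarith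
    calc 2 * C1 ^ 2 * 9 ^ d * W * (C3 / y) = 2 * C1 ^ 2 * 9 ^ d * C3 * W / y := by ring
      _ ≤ c0 ^ 2 / 4 * y * W / y := by gcongr
      _ = c0 ^ 2 / 4 * W := by field_simp
  have hsq : c0 ^ 2 * W ≤ (B.card : ℝ) ^ 2 := by
    have h1 : c0 ^ 2 * W = (c0 * (T / m) ^ d) ^ 2 := by
      rw [hW, mul_pow, ← pow_mul, mul_comm d 2]
    rw [h1]
    exact pow_le_pow_left₀ (by positivity) hboxT 2
  refine ⟨(B ×ˢ B).filter (fun q => GoodPair K m T q), fun q hq => (Finset.mem_filter.1 hq).2, ?_⟩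
  have hsplit : ((((B ×ˢ B).filter (fun q => GoodPair K m T q)).card : ℕ) : ℝ) +
      (((B ×ˢ B).filter (fun q => ¬ GoodPair K m T q)).card : ℝ) = (B.card : ℝ) ^ 2 := by
    have h1 := Finset.card_filter_add_card_filter_not (s := B ×ˢ B) (fun q => GoodPair K m T q)
    rw [Finset.card_product] at h1
    rw [sq]
    exact_mod_cast h1
  have hfinal : c0 ^ 2 / (2 * m ^ (2 * d)) * T ^ (2 * d) = c0 ^ 2 / 2 * W := by
    rw [hW, div_pow]
    field_simp
  rw [hfinal]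
  linarith

end Pool.Agent.Work.MP_a793bb_nt.RadL
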