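import Pool.Agent.Work.MP_a793bb_nt.FiniteClass
import Pool.Agent.Work.MP_a793bb_nt.RatioCount

/-!
# Definitions for the lower bound

The lower bound comes from the quotients `u / w` of coprime integers `u, w ≡ 1` modulo `m` all of whose
archimedean absolute values lie between `T` and `3 T`; a quotient comes from boundedly many
such pairs, because two such pairs with the same quotient differ by a unit of bounded size.
-/

set_option autoImplicit false

namespace Pool.Agent.Work.MP_a793bb_nt.RadL

open NumberField IsDedekindDomain Height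

/-- Integers congruent to one modulo `m`, all of whose absolute values lie in `[T, 3 T]`. -/
def boxA (K : Type*) [Field K] [NumberField K] (m : ℕ) (T : ℝ) : Set (𝓞 K) :=
  {u | (∃ s : 𝓞 K, u = 1 + (m : 𝓞 K) * s) ∧
    ∀ v : InfinitePlace K, T ≤ v (u : K) ∧ v (u : K) ≤ 3 * T}

/-- The pair `q` consists of elements of `boxA K m T` without common prime ideal. -/
def GoodPair (K : Type*) [Field K] [NumberField K] (m : ℕ) (T : ℝ) (q : 𝓞 K × 𝓞 K) : Prop :=
  q.1 ∈ boxA K m T ∧ q.2 ∈ boxA K m T ∧
    ∀ p : HeightOneSpectrum (𝓞 K), ¬ (q.1 ∈ p.asIdeal ∧ q.2 ∈ p.asIdeal)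

/-- The elements with small radical and height at most `(Module.finrank ℚ K : ℝ) * exp (R ^ (ε / 2))`. -/
def rset (K : Type*) [Field K] [NumberField K] (ε R : ℝ) : Set K :=
  {x | x ≠ 0 ∧ x ≠ 1 ∧ Real.exp (Rs (Ip x)) ≤ R ∧
    logHeight ![x, 1 - x, -1] ≤ (Module.finrank ℚ K : ℝ) * Real.exp (R ^ (ε / 2))}

end Pool.Agent.Work.MP_a793bb_nt.RadL
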